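import Pool.Agent.H590R3.AbStmts

set_option autoImplicit false

open MeasureTheory

namespace Pool.H590R3.Ab

theorem ca_neg (F : ℝ → ℝ) (k : ℤ) : ca F (-k) = ca F k := by
  unfold ca
  congr 1
  apply intervalIntegral.integral_congr
  intro θ _
  simp only []
  rw [show (((-k : ℤ)) : ℝ) * θ = -((k : ℝ) * θ) by push_cast; ring, Real.cos_neg]

theorem prod (hs : Series_stmt) : Prod_stmt := by
  intro F G hF hG hFe hFp hGe hGp hsF hsG m
  have hπ : (0:ℝ) < Real.pi := Real.pi_pos
  -- integrate term by term
  have h1 : HasSum (fun k : ℤ => ∫ θ in (0:ℝ)..Real.pi,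
      (ca F k * Real.cos (k * θ)) * (G θ * Real.cos (m * θ)))
      (∫ θ in (0:ℝ)..Real.pi, F θ * (G θ * Real.cos (m * θ))) := by
    apply intervalIntegral.hasSum_integral_of_dominated_convergence
      (fun k θ => |ca F k| * |G θ|)
    · intro k
      apply Continuous.aestronglyMeasurable
      fun_prop
    · intro k
      refine Filter.Eventually.of_forall fun θ _ => ?_
      rw [Real.norm_eq_abs, abs_mul, abs_mul, abs_mul]
      have e1 : |Real.cos (k * θ)| ≤ 1 := Real.abs_cos_le_one _
      have e2 : |Real.cos (m * θ)| ≤ 1 := Real.abs_cos_le_one _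
      calc |ca F k| * |Real.cos (k * θ)| * (|G θ| * |Real.cos (m * θ)|)
          ≤ |ca F k| * 1 * (|G θ| * 1) := by gcongr
        _ = |ca F k| * |G θ| := by ring
    · exact Filter.Eventually.of_forall fun θ _ => hsF.mul_right _
    · have : (fun θ => ∑' k : ℤ, |ca F k| * |G θ|) = fun θ => (∑' k : ℤ, |ca F k|) * |G θ| := by
        funext θ
        rw [tsum_mul_right]
      rw [this]
      apply Continuous.intervalIntegrable
      fun_prop
    · refine Filter.Eventually.of_forall fun θ _ => ?_
      exact (hs F hF hFe hFp hsF θ).mul_right _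
  have hterm : ∀ k : ℤ, ∫ θ in (0:ℝ)..Real.pi,
      (ca F k * Real.cos (k * θ)) * (G θ * Real.cos (m * θ)) =
      Real.pi / 2 * (ca F k * ca G (m - k)) + Real.pi / 2 * (ca F k * ca G (m + k)) := by
    intro k
    have e1 : ∀ θ, (ca F k * Real.cos (k * θ)) * (G θ * Real.cos (m * θ)) =
        ca F k / 2 * (G θ * Real.cos (((m - k : ℤ) : ℝ) * θ)) +
        ca F k / 2 * (G θ * Real.cos (((m + k : ℤ) : ℝ) * θ)) := by
      intro θ
      have e2 : ((m - k : ℤ) : ℝ) * θ = m * θ - k * θ := by push_cast; ring
      have e3 : ((m + k : ℤ) : ℝ) * θ = m * θ + k * θ := by push_cast; ring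
      rw [e2, e3, Real.cos_sub, Real.cos_add]
      ring
    rw [intervalIntegral.integral_congr (fun θ _ => e1 θ)]
    rw [intervalIntegral.integral_add, intervalIntegral.integral_const_mul,
      intervalIntegral.integral_const_mul]
    · unfold ca
      field_simp
    · apply Continuous.intervalIntegrable; fun_prop
    · apply Continuous.intervalIntegrable; fun_prop
  simp only [hterm] at h1
  -- summability of the products
  have hbd : ∀ j : ℤ, |ca G j| ≤ ∑' k : ℤ, |ca G k| := fun j =>
    hsG.le_tsum j (fun k _ => abs_nonneg _)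
  have hS1 : Summable (fun k : ℤ => ca F k * ca G (m - k)) := by
    refine Summable.of_norm_bounded (g := fun k => |ca F k| * ∑' k : ℤ, |ca G k|)
      (hsF.mul_right _) fun k => ?_
    rw [Real.norm_eq_abs, abs_mul]
    exact mul_le_mul_of_nonneg_left (hbd _) (abs_nonneg _)
  have hS2 : Summable (fun k : ℤ => ca F k * ca G (m + k)) := by
    refine Summable.of_norm_bounded (g := fun k => |ca F k| * ∑' k : ℤ, |ca G k|)
      (hsF.mul_right _) fun k => ?_
    rw [Real.norm_eq_abs, abs_mul]
    exact mul_le_mul_of_nonneg_left (hbd _) (abs_nonneg _)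
  have hre : ∑' k : ℤ, ca F k * ca G (m + k) = ∑' k : ℤ, ca F k * ca G (m - k) := by
    rw [← (Equiv.neg ℤ).tsum_eq (fun k : ℤ => ca F k * ca G (m + k))]
    apply tsum_congr
    intro k
    show ca F (-k) * ca G (m + -k) = _
    rw [ca_neg, ← sub_eq_add_neg]
  have h2 := h1.tsum_eq
  rw [Summable.tsum_add (hS1.mul_left _) (hS2.mul_left _), tsum_mul_left, tsum_mul_left, hre] at h2
  have h3 : ca (fun θ => F θ * G θ) m = (1 / Real.pi) * ∫ θ in (0:ℝ)..Real.pi,
      F θ * (G θ * Real.cos (m * θ)) := by
    unfold ca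
    congr 1
    apply intervalIntegral.integral_congr
    intro θ _
    simp only []
    ring
  rw [h3, ← h2]
  field_simp
  ring

end Pool.H590R3.Ab
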